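import Pool.Agent.Y557.T.GoldStm
import Pool.Agent.Y382.Gold

/-!
The abc inequality on all split thin sets over `ℤ[(1 + √5) / 2]`: the passage from triples to points.
-/

set_option autoImplicit false

namespace Pool.Agent.Results.MP_2a5a28_nt.AllThinSetsAtOnce

open NumberField IsDedekindDomain Polynomial
open Pool.Agent.Y557.U
open Pool.Agent.TH876.TM (supp)

variable {K : Type} [Field K] [NumberField K]

omit [NumberField K] in
theorem coordinates_eq (D : ℕ) (P : Fin 3 → K[X]) : coordinates D P = co D P := by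
  funext t
  cases t <;> rfl

/-- the vector of a triple -/
def vec (t : 𝓞 K × 𝓞 K × 𝓞 K) : Fin 3 → 𝓞 K := ![t.1, t.2.1, t.2.2]

/-- the vector of a triple, over `K` -/
def vecK (t : 𝓞 K × 𝓞 K × 𝓞 K) : Fin 3 → K := fun i => algebraMap (𝓞 K) K (vec t i)

theorem Triple.mem_supp {t : 𝓞 K × 𝓞 K × 𝓞 K} (h : Triple t) (v : HeightOneSpectrum (𝓞 K)) :
    v ∈ supp (vecK t) ↔ t.1 * t.2.1 * t.2.2 ∈ v.asIdeal := by
  constructor
  · intro hv
    by_contra hn
    have h1 : ∀ i, v.valuation K (vecK t i) = 1 := by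
      intro i
      unfold vecK
      rw [HeightOneSpectrum.valuation_eq_one_iff_notMem]
      intro hi
      apply hn
      fin_cases i
      · exact Ideal.mul_mem_right _ _ (Ideal.mul_mem_right _ _ hi)
      · exact Ideal.mul_mem_right _ _ (Ideal.mul_mem_left _ _ hi)
      · exact Ideal.mul_mem_left _ _ hi
    obtain ⟨i, j, hij⟩ := hv
    exact hij (by rw [h1, h1])
  · intro hv
    by_contra hn
    have h1 : ∀ i j, v.valuation K (vecK t i) = v.valuation K (vecK t j) := by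
      intro i j
      by_contra hij
      exact hn ⟨i, j, hij⟩
    have h2 : ∃ i, vec t i ∈ v.asIdeal := by
      rcases v.isPrime.mem_or_mem hv with h3 | h3
      · rcases v.isPrime.mem_or_mem h3 with h4 | h4
        · exact ⟨0, h4⟩
        · exact ⟨1, h4⟩
      · exact ⟨2, h3⟩
    obtain ⟨i, hi⟩ := h2
    have h3 : ∀ j, vec t j ∈ v.asIdeal := by
      intro j
      have h4 : v.valuation K (vecK t i) < 1 :=
        (HeightOneSpectrum.valuation_lt_one_iff_mem v (vec t i)).2 hi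
      rw [h1 i j] at h4
      exact (HeightOneSpectrum.valuation_lt_one_iff_mem v (vec t j)).1 h4
    apply v.isPrime.ne_top
    rw [eq_top_iff, ← h.cop, Ideal.span_le]
    rintro x (rfl | rfl | rfl)
    · exact h3 0
    · exact h3 1
    · exact h3 2

theorem finite_dvd {a : 𝓞 K} (ha : a ≠ 0) :
    {v : HeightOneSpectrum (𝓞 K) | a ∈ v.asIdeal}.Finite := by
  have h := Ideal.finite_factors (R := 𝓞 K) (I := Ideal.span {a}) (by
    rwa [Ne, Ideal.zero_eq_bot, Ideal.span_singleton_eq_bot])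
  refine h.subset fun v hv => ?_
  exact Ideal.dvd_span_singleton.2 hv

theorem absNorm_pos (v : HeightOneSpectrum (𝓞 K)) : (0 : ℝ) < (Ideal.absNorm v.asIdeal : ℝ) := by
  have h : Ideal.absNorm v.asIdeal ≠ 0 := fun h => v.ne_bot (Ideal.absNorm_eq_zero_iff.1 h)
  exact_mod_cast Nat.pos_of_ne_zero h

theorem rad_eq_prod {t : 𝓞 K × 𝓞 K × 𝓞 K} (h : Triple t) :
    rad t = ∏ v ∈ (finite_dvd h.ne).toFinset, (Ideal.absNorm v.asIdeal : ℝ) := by
  unfold rad
  exact finprod_mem_eq_finite_toFinset_prod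
    (fun v : HeightOneSpectrum (𝓞 K) => (Ideal.absNorm v.asIdeal : ℝ)) (finite_dvd h.ne)

theorem rad_pos {t : 𝓞 K × 𝓞 K × 𝓞 K} (h : Triple t) : 0 < rad t := by
  rw [rad_eq_prod h]
  exact Finset.prod_pos fun v _ => absNorm_pos v

theorem rS_vec {t : 𝓞 K × 𝓞 K × 𝓞 K} (h : Triple t) :
    rS ((∅ : Finset (HeightOneSpectrum (𝓞 K))) : Set (HeightOneSpectrum (𝓞 K))) (vecK t) =
      Real.log (rad t) / dgr K := by
  unfold rS
  congr 1
  have e : {v : HeightOneSpectrum (𝓞 K) | v ∉ ((∅ : Finset (HeightOneSpectrum (𝓞 K))) :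
      Set (HeightOneSpectrum (𝓞 K))) ∧ v ∈ supp (vecK t)} =
      {v : HeightOneSpectrum (𝓞 K) | t.1 * t.2.1 * t.2.2 ∈ v.asIdeal} := by
    ext v
    simp only [Finset.coe_empty, Set.mem_empty_iff_false, not_false_eq_true, true_and,
      Set.mem_ofPred_eq]
    exact h.mem_supp v
  rw [e, finsum_mem_eq_finite_toFinset_sum _ (finite_dvd h.ne), rad_eq_prod h,
    Real.log_prod fun v _ => (absNorm_pos v).ne']

theorem sup3 (f : Fin 3 → ℝ) : ⨆ i, f i = max (f 0) (max (f 1) (f 2)) := by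
  apply le_antisymm
  · refine ciSup_le fun i => ?_
    fin_cases i
    · exact le_max_left _ _
    · exact (le_max_left _ _).trans (le_max_right _ _)
    · exact (le_max_right _ _).trans (le_max_right _ _)
  · have h : ∀ i, f i ≤ ⨆ i, f i := fun i => le_ciSup (Set.finite_range f).bddAbove i
    exact max_le (h 0) (max_le (h 1) (h 2))

theorem height_pos {t : 𝓞 K × 𝓞 K × 𝓞 K} (h : Triple t) : 0 < height t := by
  unfold height
  refine Finset.prod_pos fun φ _ => lt_of_lt_of_le ?_ (le_max_left _ _)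
  rw [norm_pos_iff]
  intro h1
  have h2 := (map_eq_zero φ).1 h1
  have h3 : t.1 = 0 := RingOfIntegers.coe_eq_zero_iff.1 h2
  exact h.ne (by rw [h3]; ring)

theorem logHeight_vec {t : 𝓞 K × 𝓞 K × 𝓞 K} (h : Triple t) :
    Height.logHeight (vecK t) = Real.log (height t) := by
  classical
  have h1 : t.1 ≠ 0 := fun h3 => h.ne (by rw [h3]; ring)
  have hv : vec t ≠ 0 := fun h3 => h1 (congrFun h3 0)
  have hvK : vecK t ≠ 0 := by
    intro h3
    have h4 : algebraMap (𝓞 K) K t.1 = 0 := congrFun h3 0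
    exact h1 (RingOfIntegers.coe_eq_zero_iff.1 h4)
  rw [Height.logHeight_eq_log_mulHeight, NumberField.mulHeight_eq hvK]
  congr 1
  have hfin : ∏ᶠ v : FinitePlace K, ⨆ i, v (vecK t i) = 1 := by
    have h2 := NumberField.absNorm_mul_finprod_finitePlace_eq_one (K := K) hv
    have h3 : Ideal.span (Set.range (vec t)) = ⊤ := by
      rw [← h.cop]
      congr 1
      ext x
      simp only [vec, Set.mem_range, Fin.exists_fin_succ, Set.mem_insert_iff,
        Set.mem_singleton_iff]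
      simp [eq_comm]
    rw [h3, Ideal.absNorm_top, Nat.cast_one, one_mul] at h2
    exact h2
  rw [hfin, mul_one]
  unfold height
  have e : ∀ φ : K →+* ℂ, max ‖φ t.1‖ (max ‖φ t.2.1‖ ‖φ t.2.2‖) =
      (fun w : InfinitePlace K => ⨆ i, w (vecK t i)) (InfinitePlace.mk φ) := by
    intro φ
    simp only
    rw [sup3]
    simp only [InfinitePlace.apply]
    rfl
  rw [Finset.prod_congr rfl fun φ _ => e φ,
    ← Finset.prod_fiberwise (s := Finset.univ) (g := InfinitePlace.mk)]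
  refine Finset.prod_congr rfl fun w _ => ?_
  rw [Finset.prod_congr rfl (g := fun _ => ⨆ i, w (vecK t i)) (by
    intro φ hφ
    rw [Finset.mem_filter] at hφ
    simp only [hφ.2]), Finset.prod_const]
  congr 1
  exact (InfinitePlace.card_filter_mk_eq w).symm

theorem supp_smul (y : Fin 3 → K) {s : K} (hs : s ≠ 0) : supp (s • y) = supp y := by
  ext v
  have h0 : v.valuation K s ≠ 0 := (Valuation.ne_zero_iff _).2 hs
  constructor
  · rintro ⟨i, j, hij⟩
    refine ⟨i, j, fun h => hij ?_⟩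
    rw [Pi.smul_apply, Pi.smul_apply, smul_eq_mul, smul_eq_mul, map_mul, map_mul, h]
  · rintro ⟨i, j, hij⟩
    refine ⟨i, j, fun h => hij ?_⟩
    rw [Pi.smul_apply, Pi.smul_apply, smul_eq_mul, smul_eq_mul, map_mul, map_mul] at h
    exact mul_left_cancel₀ h0 h

/-- the class of a triple: all quantities -/
theorem class_eq {t : 𝓞 K × 𝓞 K × 𝓞 K} (h : Triple t) {y : Fin 3 → K} {s : K} (hs : s ≠ 0)
    (h0 : (t.1 : K) = s * y 0) (h1 : (t.2.1 : K) = s * y 1) (h2 : (t.2.2 : K) = s * y 2) :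
    (∀ i, y i ≠ 0) ∧
    rS ((∅ : Finset (HeightOneSpectrum (𝓞 K))) : Set (HeightOneSpectrum (𝓞 K))) y =
      Real.log (rad t) / dgr K ∧ ht y = Real.log (height t) / dgr K := by
  have hv : vecK t = s • y := by
    funext i
    fin_cases i
    · exact h0
    · exact h1
    · exact h2
  have hn := h.ne
  have hne : ∀ a : 𝓞 K, a ≠ 0 → (a : K) ≠ 0 := fun a ha h3 =>
    ha (RingOfIntegers.coe_eq_zero_iff.1 h3)
  refine ⟨?_, ?_, ?_⟩
  · intro i hi
    fin_cases i
    · have : y 0 = 0 := hi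
      rw [this, mul_zero] at h0
      exact hne _ (left_ne_zero_of_mul (left_ne_zero_of_mul hn)) h0
    · have : y 1 = 0 := hi
      rw [this, mul_zero] at h1
      exact hne _ (right_ne_zero_of_mul (left_ne_zero_of_mul hn)) h1
    · have : y 2 = 0 := hi
      rw [this, mul_zero] at h2
      exact hne _ (right_ne_zero_of_mul hn) h2
  · rw [← rS_vec h, hv]
    unfold rS
    rw [supp_smul y hs]
  · unfold ht
    rw [← logHeight_vec h, hv, Height.logHeight_smul_eq_logHeight y hs]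

theorem exists_triple (hK : Module.finrank ℚ K = 2) (h5 : ∃ s : K, s ^ 2 = 5) {y : Fin 3 → K}
    (hy : ∀ i, y i ≠ 0) (hsum : y 0 + y 1 + y 2 = 0) :
    ∃ t : 𝓞 K × 𝓞 K × 𝓞 K, Triple t ∧ ∃ s : K, s ≠ 0 ∧ (t.1 : K) = s * y 0 ∧
      (t.2.1 : K) = s * y 1 ∧ (t.2.2 : K) = s * y 2 := by
  obtain ⟨s5, hs5⟩ := h5
  obtain ⟨a, b, hb, hab, he⟩ := Pool.Agent.Y382.Gold.exists_coprime hK hs5 (y 0 / y 1)
  have hbK : (b : K) ≠ 0 := fun h3 => hb (RingOfIntegers.coe_eq_zero_iff.1 h3)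
  have hy0 := hy 0
  have hy1 := hy 1
  have hy2 := hy 2
  have ha : (a : K) = b / y 1 * y 0 := by
    field_simp at he ⊢
    linear_combination -he
  have hs : (b : K) / y 1 ≠ 0 := div_ne_zero hbK hy1
  have hb' : (b : K) = b / y 1 * y 1 := by field_simp
  have hc' : ((-(a + b) : 𝓞 K) : K) = b / y 1 * y 2 := by
    have e : y 2 = -(y 0 + y 1) := by linear_combination hsum
    have e3 : ((-(a + b) : 𝓞 K) : K) = -((a : K) + (b : K)) := by
      show algebraMap (𝓞 K) K (-(a + b)) = -(algebraMap (𝓞 K) K a + algebraMap (𝓞 K) K b)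
      rw [map_neg, map_add]
    rw [e3, e]
    linear_combination -ha - hb'
  have hne : ∀ (c : 𝓞 K) (i : Fin 3), (c : K) = b / y 1 * y i → c ≠ 0 := by
    intro c i hc h0
    rw [h0] at hc
    have h1 : (b : K) / y 1 * y i = 0 := by
      rw [← hc]
      simp
    exact mul_ne_zero hs (hy i) h1
  refine ⟨(a, b, -(a + b)), ⟨by ring, ?_, ?_⟩, (b : K) / y 1, hs, ha, hb', hc'⟩
  · exact mul_ne_zero (mul_ne_zero (hne a 0 ha) hb) (hne _ 2 hc')
  · rw [Ideal.eq_top_iff_one]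
    obtain ⟨u, v, huv⟩ := hab
    rw [← huv]
    refine Ideal.add_mem _ (Ideal.mul_mem_left _ _ (Ideal.subset_span ?_))
      (Ideal.mul_mem_left _ _ (Ideal.subset_span ?_))
    · exact Set.mem_insert _ _
    · exact Set.mem_insert_of_mem _ (Set.mem_insert _ _)

theorem dgr_eq (hK : Module.finrank ℚ K = 2) : dgr K = 2 := by
  unfold dgr
  rw [hK]
  norm_num

theorem curve_ck (hK : Module.finrank ℚ K = 2) {D q : ℕ} {B : ℝ} {P : Fin 3 → K[X]}
    (h : Curve D q B P) : 0 ≤ B ∧ Ck 3 D q (B / 2) ∅ P := by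
  have hB : 0 ≤ B := (Height.logHeight_nonneg _).trans h.height_le
  refine ⟨hB, h.ne_zero, h.splits, ?_, h.degree_le, h.degree_eq, h.points, ?_, ?_⟩
  · obtain ⟨a, b, hab⟩ := h.coprime
    refine ⟨![a, b, 0], ?_⟩
    rw [Fin.sum_univ_three]
    simp only [Matrix.cons_val_zero, Matrix.cons_val_one, Matrix.cons_val, zero_mul, add_zero]
    exact hab
  · rw [Finset.sum_empty, zero_div]
    positivity
  · unfold ht
    rw [dgr_eq hK]
    exact div_le_div_of_nonneg_right h.height_le (by norm_num)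

theorem log_half {X : ℝ} (hX : 1 ≤ X) : Real.log (X ^ (1 / 2 : ℝ)) = Real.log X / 2 := by
  rw [Real.log_rpow (by linarith)]
  ring

theorem curve_ck' (hK : Module.finrank ℚ K = 2) {D q : ℕ} {η X : ℝ} (hX : 1 ≤ X)
    {P : Fin 3 → K[X]} (h : Curve D q (η * Real.log X) P) :
    Ck 3 D q (η * Real.log (X ^ (1 / 2 : ℝ))) ∅ P := by
  have h1 := (curve_ck hK h).2
  rw [log_half hX]
  have e : η * (Real.log X / 2) = η * Real.log X / 2 := by ring
  rwa [e]

omit [NumberField K] in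
theorem co_sum {D : ℕ} {P : Fin 3 → K[X]} (h : P 0 + P 1 + P 2 = 0) (τ : Option K) :
    co D P τ 0 + co D P τ 1 + co D P τ 2 = 0 := by
  cases τ with
  | none =>
    show (P 0).coeff D + (P 1).coeff D + (P 2).coeff D = 0
    rw [← coeff_add, ← coeff_add, h, coeff_zero]
  | some t =>
    show (P 0).eval t + (P 1).eval t + (P 2).eval t = 0
    rw [← eval_add, ← eval_add, h, eval_zero]

theorem classes_eq (hK : Module.finrank ℚ K = 2) (h5 : ∃ s : K, s ^ 2 = 5) {D : ℕ}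
    {P : Fin 3 → K[X]} (hP : P 0 + P 1 + P 2 = 0) {X : ℝ} (hX : 1 ≤ X) :
    Classes D P X = Pk D ((∅ : Finset (HeightOneSpectrum (𝓞 K))) :
      Set (HeightOneSpectrum (𝓞 K))) P (X ^ (1 / 2 : ℝ)) := by
  unfold Classes IsClass Pk
  simp only [coordinates_eq]
  ext Q
  simp only [Set.mem_ofPred_eq]
  rw [log_half hX]
  constructor
  · rintro ⟨t, ht, hr, τ, hx, hQ, s, hs, e0, e1, e2⟩
    obtain ⟨k1, k2, -⟩ := class_eq ht hs e0 e1 e2
    refine ⟨τ, hx, hQ, k1, ?_⟩
    rw [k2, dgr_eq hK]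
    have := Real.log_le_log (rad_pos ht) hr
    linarith
  · rintro ⟨τ, hx, hQ, hne, hr⟩
    obtain ⟨t, ht, s, hs, e0, e1, e2⟩ := exists_triple hK h5 hne (co_sum hP τ)
    obtain ⟨-, k2, -⟩ := class_eq ht hs e0 e1 e2
    refine ⟨t, ht, ?_, τ, hx, hQ, s, hs, e0, e1, e2⟩
    rw [k2, dgr_eq hK] at hr
    exact (Real.log_le_log_iff (rad_pos ht) (by linarith)).1 (by linarith)

theorem all_sub (hK : Module.finrank ℚ K = 2) (h5 : ∃ s : K, s ^ 2 = 5) (D q : ℕ) (η : ℝ)
    {X : ℝ} (hX : 1 ≤ X) : AllClasses K D q η X ⊆ APk K 3 D q η (X ^ (1 / 2 : ℝ)) := by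
  rintro Q ⟨P, hP, hQ⟩
  rw [classes_eq hK h5 hP.sum_zero hX] at hQ
  exact ⟨∅, P, curve_ck' hK hX hP, hQ⟩

theorem exc_sub (hK : Module.finrank ℚ K = 2) (D q : ℕ) (η M : ℝ) {c X : ℝ} (hc : 0 < c)
    (hX : 1 ≤ X) : Exceptions K D q η M c X ⊆
      EXk K 3 D q η M (Real.log c / 2) (X ^ (1 / 2 : ℝ)) := by
  rintro Q ⟨P, hP, t, ht, hr, hcl, hex⟩
  unfold IsClass at hcl
  simp only [coordinates_eq] at hcl
  obtain ⟨τ, hx, hQ, s, hs, e0, e1, e2⟩ := hcl
  obtain ⟨k1, k2, k3⟩ := class_eq ht hs e0 e1 e2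
  refine ⟨∅, P, curve_ck' hK hX hP, τ, hx, hQ, k1, ?_, ?_⟩
  · rw [k2, dgr_eq hK, log_half hX]
    have := Real.log_le_log (rad_pos ht) hr
    linarith
  · rw [k2, k3, dgr_eq hK]
    have h1 : 0 < rad t ^ M := Real.rpow_pos_of_pos (rad_pos ht) M
    have h2 := Real.log_le_log (mul_pos hc h1) hex
    rw [Real.log_mul hc.ne' h1.ne', Real.log_rpow (rad_pos ht)] at h2
    linarith

theorem claim_holds : Claim := by
  intro K _ _ hK h5 D q hD hq
  obtain ⟨h1, h2, C3, hC3, h3⟩ := abk_main K 3 D q hD hq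
  rw [dgr_eq hK] at h1 h2
  have hone : ∀ X : ℝ, 1 ≤ X → 1 ≤ X ^ (1 / 2 : ℝ) := fun X hX =>
    Real.one_le_rpow hX (by norm_num)
  have hpow : ∀ X s : ℝ, 1 ≤ X → (X ^ (1 / 2 : ℝ)) ^ s = X ^ (s / 2) := fun X s hX => by
    rw [← Real.rpow_mul (by linarith)]
    congr 1
    ring
  have hge : ∀ X₀ X : ℝ, max 1 (X₀ ^ 2) ≤ X → X₀ ≤ X ^ (1 / 2 : ℝ) := by
    intro X₀ X hX
    have k2 : X₀ ^ 2 ≤ X := (le_max_right _ _).trans hX
    rw [← Real.sqrt_eq_rpow]
    exact Real.le_sqrt_of_sq_le k2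
  refine ⟨fun B P hP => ?_, fun δ hδ => ?_, fun M hM => ?_, ?_⟩
  · have h4 := Pool.Agent.Y557.NF.mason_q hP.ne_zero hP.splits hP.sum_zero hP.coprime hP.degree_le
      hP.degree_eq hD
    refine h4.trans ?_
    rw [← hP.points]
    unfold zeros Pool.Agent.Y557.NF.nz
    refine add_le_add (le_of_eq (congrArg Finset.card (Finset.ext fun r => ?_))) ?_
    · exact (@Multiset.mem_toFinset _ (_) _ _).trans (@Multiset.mem_toFinset _ (_) _ _).symm
    · by_cases h5 : Pool.Agent.Y557.NF.Unequal P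
      · rw [if_pos h5]
        obtain ⟨a, b, hab⟩ := h5
        rw [if_pos ⟨a, lt_of_lt_of_le hab (hP.degree_le b)⟩]
      · rw [if_neg h5]
        exact Nat.zero_le _
  · obtain ⟨η, hη, ⟨C, hC⟩, X0, hX0⟩ := h1 (2 * δ) (by positivity)
    refine ⟨η, hη, ⟨C, fun X hX => ?_⟩, max 1 (X0 ^ 2), fun X hX P hP => ?_⟩
    · obtain ⟨h4, h6⟩ := hC (X ^ (1 / 2 : ℝ)) (hone X hX)
      have h7 := all_sub hK h5 D q η hX
      refine ⟨h4.subset h7, le_trans ?_ (h6.trans (le_of_eq ?_))⟩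
      · exact_mod_cast Set.ncard_le_ncard h7 h4
      · rw [hpow X _ hX]
        congr 2
        ring
    · have k1 : 1 ≤ X := (le_max_left _ _).trans hX
      have h4 := hX0 (X ^ (1 / 2 : ℝ)) (hge X0 X hX) ∅ P (curve_ck' hK k1 hP)
      rw [← classes_eq hK h5 hP.sum_zero k1, hpow X _ k1] at h4
      refine le_trans (le_of_eq ?_) h4
      congr 1
      ring
  · obtain ⟨η, ν, hη, hν, h4⟩ := h2 M hM
    refine ⟨η, ν / 2, hη, by positivity, fun c hc => ?_⟩
    obtain ⟨⟨C, hC⟩, X0, hX0⟩ := h4 (Real.log c / 2)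
    refine ⟨⟨C, fun X hX => ?_⟩, max 1 (X0 ^ 2), fun X hX P hP => ?_⟩
    · obtain ⟨h6, h7⟩ := hC (X ^ (1 / 2 : ℝ)) (hone X hX)
      have h8 := exc_sub hK D q η M hc hX
      refine ⟨h6.subset h8, le_trans ?_ (h7.trans (le_of_eq ?_))⟩
      · exact_mod_cast Set.ncard_le_ncard h8 h6
      · rw [hpow X _ hX]
        congr 2
        ring
    · have k1 : 1 ≤ X := (le_max_left _ _).trans hX
      obtain ⟨h6, -⟩ := hC (X ^ (1 / 2 : ℝ)) (hone X k1)
      have h8 := exc_sub hK D q η M hc k1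
      have h9 := hX0 (X ^ (1 / 2 : ℝ)) (hge X0 X hX) ∅ P (curve_ck' hK k1 hP)
      rw [← classes_eq hK h5 hP.sum_zero k1, hpow X _ k1] at h9
      have e : -ν / 2 = -(ν / 2) := by ring
      rw [e] at h9
      refine le_trans ?_ h9
      exact_mod_cast Set.ncard_le_ncard h8 h6
  · refine ⟨2 * C3, fun B P hP Q t ht hcl => ?_⟩
    unfold IsClass at hcl
    simp only [coordinates_eq] at hcl
    obtain ⟨τ, hx, -, s, hs, e0, e1, e2⟩ := hcl
    obtain ⟨k1, k2, k3⟩ := class_eq ht hs e0 e1 e2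
    obtain ⟨hB, hCk⟩ := curve_ck hK hP
    have h4 := h3 (B / 2) ∅ P hCk τ hx k1
    rw [k2, k3, dgr_eq hK] at h4
    have hr := rad_pos ht
    have hh := height_pos ht
    rw [← Real.log_le_log_iff (pow_pos hr D) (mul_pos (Real.exp_pos _) (pow_pos hh q)),
      Real.log_pow, Real.log_mul (Real.exp_pos _).ne' (pow_pos hh q).ne', Real.log_exp,
      Real.log_pow]
    have h6 : 0 ≤ C3 * B := mul_nonneg hC3 hB
    nlinarith

end Pool.Agent.Results.MP_2a5a28_nt.AllThinSetsAtOnce
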